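import Mathlib
import Pool.Agent.MP_ed46bc_co.SP.All

/-!
# A sharp lower bound for the number of Schur triples in every finite abelian group
-/

namespace Pool.Agent.Results.MP_ed46bc_co.AllGroups

open Finset

universe u

/-- `P(G,k,A)`: the number of ordered `k`-tuples of elements of `A` whose sum lies in `A`. -/
def P {G : Type u} [AddCommGroup G] [Fintype G] [DecidableEq G] (k : ℕ) (A : Finset G) : ℕ :=
  (Finset.univ.filter fun a : Fin k → G => (∀ i, a i ∈ A) ∧ ∑ i, a i ∈ A).card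

/-- `P(G,k,m)`: the minimum of `P(G,k,A)` over the subsets `A` of size `m`. -/
noncomputable def Pmin (G : Type u) [AddCommGroup G] [Fintype G] [DecidableEq G]
    (k m : ℕ) : ℕ :=
  sInf {p : ℕ | ∃ A : Finset G, A.card = m ∧ P k A = p}

/-- The largest value of `(κ - s)(κ - 5s)` over the divisors `κ` of `n` and the odd `t ≤ n` with
`s = |b - tκ| ≤ κ / 5`; it is `0` if there is no such pair. -/
def gainArc (n b : ℕ) : ℕ :=
  ((n.divisors ×ˢ range (n + 1)).filter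
      fun p : ℕ × ℕ => Odd p.2 ∧ 5 * Nat.dist b (p.2 * p.1) ≤ p.1).sup
    fun p : ℕ × ℕ => (p.1 - Nat.dist b (p.2 * p.1)) * (p.1 - 5 * Nat.dist b (p.2 * p.1))

/-- The largest value of `(2N - 3b)²` over the divisors `N`, `d` of `n` with `d ∣ N` and
`N - ⌊(d+1)/3⌋ N/d ≤ b ≤ N`; it is `0` if there is no such pair. -/
def gainFree (n b : ℕ) : ℕ :=
  ((n.divisors ×ˢ n.divisors).filter
      fun p : ℕ × ℕ => p.2 ∣ p.1 ∧ b ≤ p.1 ∧ p.1 ≤ b + (p.2 + 1) / 3 * (p.1 / p.2)).sup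
    fun p : ℕ × ℕ => Nat.dist (2 * p.1) (3 * b) ^ 2

theorem result (G : Type u) [AddCommGroup G] [Fintype G] [DecidableEq G]
    (m : ℕ) (hm : m ≤ Fintype.card G) :
    (3 * (m : ℤ) - Fintype.card G) ^ 2 -
        (max (gainArc (Fintype.card G) (Fintype.card G - m))
          (gainFree (Fintype.card G) (Fintype.card G - m)) : ℕ) ≤ 4 * (Pmin G 2 m : ℤ) := by
  obtain ⟨A₀, -, hA₀⟩ := exists_subset_card_eq (s := (univ : Finset G)) (n := m)
    (by rwa [card_univ])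
  obtain ⟨A, hA, hp⟩ := Nat.sInf_mem (s := {p : ℕ | ∃ A : Finset G, A.card = m ∧ P 2 A = p})
    ⟨_, A₀, hA₀, rfl⟩
  have h1 := Pool.Agent.MP_ed46bc_co.SP.all_ub G Aᶜ
  have h2 := Pool.Agent.MP_ed46bc_co.SP.fin_count A
  have h3 := Pool.Agent.MP_ed46bc_co.SP.fin_compl A
  rw [card_compl, hA] at h1
  rw [hA] at h3
  have h4 : (Pmin G 2 m : ℤ) = Pool.Agent.MP_ed46bc_co.SP.T A A (Pool.Agent.MP_ed46bc_co.SP.ng A) := by
    rw [← h2, Pmin, ← hp]; rfl
  have h5 : ((max (gainArc (Fintype.card G) (Fintype.card G - m))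
      (gainFree (Fintype.card G) (Fintype.card G - m)) : ℕ) : ℤ) =
      (Pool.Agent.MP_ed46bc_co.SP.E (Fintype.card G) (Fintype.card G - m) : ℤ) := rfl
  rw [h4, h5]; linarith

end Pool.Agent.Results.MP_ed46bc_co.AllGroups
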